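import Pool.Agent.Lib.MP_305fdd_al.Su.Asm.T4a
import Pool.Agent.Lib.MP_305fdd_al.Su.G.LemG
import Pool.Agent.Lib.MP_305fdd_al.Su.M.Nil

/-!
# MP_305fdd_al, surface groups: (T4) for amalgams, final form
-/

set_option autoImplicit false

namespace Pool.Agent.SuAsm

/-- LEMMA G for every package -/
theorem p_G : S_G := fun _ _ _ _ _ _ _ _ _ _ P => SuG.lemG' P (SuM.model P.two)

/-- (T4a) -/
theorem p_T4a : S_T4a := t4a_of p_G

end Pool.Agent.SuAsm
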