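import Pool.Agent.Lib.MP_305fdd_al.Su.Asm.Stm
import Pool.Agent.Lib.MP_305fdd_al.Su.AA.T1
import Pool.Agent.Lib.MP_305fdd_al.Su.M.Nil

/-!
# MP_305fdd_al, surface groups: (T1), the splitting
-/

set_option autoImplicit false

namespace Pool.Agent.SuAsm

/-- (T1) -/
theorem p_T1 : S_T1 := fun _ _ _ _ _ _ _ _ _ _ h => h.t1 (SuM.model h.two)

end Pool.Agent.SuAsm
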