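import Pool.Agent.Lib.MP_305fdd_al.Su.AA.Pk
import Pool.Agent.Lib.MP_305fdd_al.Su.Tr.Set

/-!
# MP_305fdd_al, surface groups: GROUP-SIDE ASSEMBLY, statements

`Pk g π ρ` (block AA): `Λ` has the same finite quotients as the closed surface group of genus `g ≥ 2`,
`π : Λ → Γ` is surjective, `ρ` is a faithful representation of `Γ` and `ρ ∘ π` is generic.
`Spl`, `HT`, `Bad`: block TREES.
-/

set_option autoImplicit false

namespace Pool.Agent.SuAsm

open Matrix (SpecialLinearGroup)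
open Pool.Agent.Lib.MP_305fdd_al Pool.Agent.Su Pool.Agent.SuAA Pool.Agent.SuT Pool.Agent.SuUp

/-- NONDEFECT: there is a representation `r` of `A` over a domain `R` of characteristic two which
specialises to the restriction of `ρ` and for which the traces of `z` and `z'` are different -/
def NDf {G F : Type} [Group G] [Field F] (ρ : G →* SpecialLinearGroup (Fin 2) F)
    (A : Subgroup G) (z z' : G) : Prop :=
  ∃ (R F' : Type) (_ : CommRing R) (_ : IsDomain R) (_ : Algebra (ZMod 2) R) (_ : Field F')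
    (i : F →+* F') (s : R →+* F') (r : A →* SpecialLinearGroup (Fin 2) R) (hz : z ∈ A)
    (hz' : z' ∈ A), (∀ a : A, SpecialLinearGroup.map s (r a) = SpecialLinearGroup.map i (ρ a)) ∧
      (r ⟨z, hz⟩).1.trace ≠ (r ⟨z', hz'⟩).1.trace

/-- (T1) a splitting with one orbit of edges -/
def S_T1 : Prop :=
  ∀ (g : ℕ) (Λ Γ F : Type) [Group Λ] [Group Γ] [Field F] [Algebra (ZMod 2) F] (π : Λ →* Γ)
    (ρ : Γ →* SpecialLinearGroup (Fin 2) F), Pk g π ρ →
    ∃ (V : Type) (_ : MulAction Γ V) (X : SimpleGraph V) (u v : V), Spl Γ X ∧ X.Adj u v ∧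
      OE Γ X u v

/-- (T3) a splitting with at least two orbits of vertices gives an amalgam or a nondefect HNN
extension -/
def S_T3 : Prop :=
  ∀ (g : ℕ) (Λ Γ F : Type) [Group Λ] [Group Γ] [Field F] [Algebra (ZMod 2) F] (π : Λ →* Γ)
    (ρ : Γ →* SpecialLinearGroup (Fin 2) F), Pk g π ρ →
    ∀ (V : Type) [MulAction Γ V] (X : SimpleGraph V), Spl Γ X → (∃ x y : V, ∀ h : Γ, h • x ≠ y) →
    ∃ (W : Type) (_ : MulAction Γ W) (Y : SimpleGraph W), Spl Γ Y ∧
      ((∃ u v, Y.Adj u v ∧ OE Γ Y u v ∧ ∀ h : Γ, h • u ≠ v) ∨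
        ∃ (v : W) (t : Γ), HT Γ Y v t ∧ ∃ z ∈ ES Γ v (t • v),
          NDf ρ (MulAction.stabilizer Γ v) z (t⁻¹ * z * t))

/-- (T4, amalgam) the vertex groups are free -/
def S_T4a : Prop :=
  ∀ (g : ℕ) (Λ Γ F : Type) [Group Λ] [Group Γ] [Field F] [Algebra (ZMod 2) F] (π : Λ →* Γ)
    (ρ : Γ →* SpecialLinearGroup (Fin 2) F), Pk g π ρ →
    ∀ (V : Type) [MulAction Γ V] (X : SimpleGraph V) (u v : V), Spl Γ X → X.Adj u v →
      OE Γ X u v → (∀ h : Γ, h • u ≠ v) →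
      IsFreeGroup (MulAction.stabilizer Γ u) ∧ IsFreeGroup (MulAction.stabilizer Γ v)

/-- (T4, nondefect HNN extension) the vertex group is free -/
def S_T4b : Prop :=
  ∀ (g : ℕ) (Λ Γ F : Type) [Group Λ] [Group Γ] [Field F] [Algebra (ZMod 2) F] (π : Λ →* Γ)
    (ρ : Γ →* SpecialLinearGroup (Fin 2) F), Pk g π ρ →
    ∀ (V : Type) [MulAction Γ V] (X : SimpleGraph V) (v : V) (t : Γ), Spl Γ X → HT Γ X v t →
      ∀ z ∈ ES Γ v (t • v), NDf ρ (MulAction.stabilizer Γ v) z (t⁻¹ * z * t) →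
      IsFreeGroup (MulAction.stabilizer Γ v)

/-- (T6) one step up -/
def S_T6 : Prop :=
  ∀ (g n : ℕ) (L : Type) [Group L], 2 ≤ g → Group.FG L → Nonempty (NatBij L (SurfaceGroup g)) →
    ∀ θ : L →* Multiplicative (ZMod 2), θ ≠ 1 → Nonempty (θ.ker ≃* SurfaceGroup (n + 2)) →
      Nonempty (L ≃* SurfaceGroup g)

end Pool.Agent.SuAsm
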