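import Pool.Agent.Lib.MP_305fdd_al.Su.Asm.T4b
import Pool.Agent.Lib.MP_305fdd_al.Su.CH.Nd

/-!
# MP_305fdd_al, surface groups: (T4) for nondefect HNN extensions, second form

`t4b_hf`: (T4b) from the theorem `HF` (the group `A` of a nondefect HNN extension is free).
-/

set_option autoImplicit false

namespace Pool.Agent.SuAsm

open Matrix (SpecialLinearGroup)
open Pool.Agent.Lib.MP_305fdd_al Pool.Agent.Su Pool.Agent.SuAA Pool.Agent.SuT Pool.Agent.SuUp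
  Pool.Agent.FrN Pool.Agent.SuCM Pool.Agent.SuCH

/-- CM-HNN + FIN: the vertex group of a nondefect HNN extension is free -/
def HF : Prop :=
  ∀ (g : ℕ) (Λ Γ F : Type) [Group Λ] [Group Γ] [Field F] [Algebra (ZMod 2) F]
    (π : Λ →* Γ) (ρ : Γ →* SpecialLinearGroup (Fin 2) F), Pk g π ρ →
    ∀ (A : Subgroup Γ) (zm zp s : Γ) (h : HG 10 A zm zp s), Group.FG A →
    ∀ (R F' : Type) [CommRing R] [IsDomain R] [Algebra (ZMod 2) R] [Field F'] (i : F →+* F')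
      (s' : R →+* F') (r : A →* SpecialLinearGroup (Fin 2) R),
      (∀ a : A, SpecialLinearGroup.map s' (r a) = SpecialLinearGroup.map i (ρ a)) →
      (r ⟨zp, h.mp⟩).1.trace ≠ (r ⟨zm, h.mm⟩).1.trace → IsFreeGroup A

/-- (T4b) -/
theorem t4b_hf (hf : HF) : S_T4b := by
  intro g Λ Γ F _ _ _ _ π ρ P V _ X v t hS h z hz hnd
  obtain ⟨z₀, hz1, hz0, hZ⟩ := SuT4.exists_z h.mc
  have h1 := SuE.hnUP_of_tree h z₀ hZ
  rw [hZ] at hz
  obtain ⟨n, rfl⟩ := hz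
  have h2 : t⁻¹ * z₀ ^ n * t = (t⁻¹ * z₀ * t) ^ n := by
    have h3 := conj_zpow (a := t⁻¹) (b := z₀) (i := n)
    rw [inv_inv] at h3
    exact h3.symm
  have hnd' : NDf ρ (MulAction.stabilizer Γ v) z₀ (t⁻¹ * z₀ * t) := by
    refine ndf_pow h1.mem1 h1.mem0 n ?_
    rw [← h2]
    exact hnd
  obtain ⟨R, F', _, _, _, _, i, s, r, hz', hz'', h3, h4⟩ := hnd'
  have h5 : HG 10 (MulAction.stabilizer Γ v) (t⁻¹ * z₀ * t) z₀ t := HG.ofUP 10 h1
  have h6 : Group.FG (MulAction.stabilizer Γ v) := (Group.fg_iff_subgroup_fg _).2 (hS.fg v)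
  exact hf g Λ Γ F π ρ P _ _ _ _ h5 h6 R F' i s r h3 h4

end Pool.Agent.SuAsm
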