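import Pool.Agent.Lib.MP_305fdd_al.Su.Asm.Nd
import Pool.Agent.Lib.MP_305fdd_al.Su.Asm.T1
import Pool.Agent.Lib.MP_305fdd_al.Su.Asm.P4a
import Pool.Agent.Lib.MP_305fdd_al.Su.Asm.T4c
import Pool.Agent.Lib.MP_305fdd_al.Su.III.T3
import Pool.Agent.Lib.MP_305fdd_al.Su.CH.End
import Pool.Agent.Lib.MP_305fdd_al.Su.Up.Step
import Pool.Agent.Lib.MP_305fdd_al.Su.Top.T7

/-!
# MP_305fdd_al, surface groups: the theorem

`surface_rigid`: the fundamental groups of closed orientable surfaces are profinitely rigid.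
-/

set_option autoImplicit false

namespace Pool.Agent.SuAsm

open Matrix (SpecialLinearGroup)
open Pool.Agent.MP_305fdd_al Pool.Agent.Lib.MP_305fdd_al Pool.Agent.Su Pool.Agent.SuAA
  Pool.Agent.SuT Pool.Agent.SuUp

/-- (T3) -/
theorem q_T3 : S_T3 := by
  intro g Λ Γ F _ _ _ _ π ρ P V _ X hX hx
  obtain ⟨x, y, hxy⟩ := hx
  obtain ⟨W, _, Y, p, q, hY, hpq, hoe, h⟩ := SuIII.t3 P (fun z hz => SuCM.pk_div P z hz) hX hxy
  refine ⟨W, inferInstance, Y, hY, ?_⟩
  rcases h with h | ⟨t, z, -, hht, hz, R, F', _, _, _, _, i, s, r, h1, hz1, hz2, h2⟩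
  · exact Or.inl ⟨p, q, hpq, hoe, h⟩
  · refine Or.inr ⟨p, t, hht, z, ?_, R, F', inferInstance, inferInstance, inferInstance,
      inferInstance, i, s, r, hz1, hz2, h1, h2⟩
    rw [hz]
    exact Subgroup.mem_zpowers z

/-- (T4b) -/
theorem q_T4b : S_T4b := by
  refine t4b_hf ?_
  intro g Λ Γ F _ _ _ _ π ρ P A zm zp s h hA R F' _ _ _ _ i s' r hr hne
  obtain ⟨e⟩ := SuCH.hnn_free P h (le_refl 10) hA i s' r hr hne
  exact IsFreeGroup.ofMulEquiv e.symm

/-- **Surface groups**: a finitely generated residually finite group whose finite quotients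
correspond naturally to those of a surface group of genus at least two is isomorphic to it. -/
theorem surface_main (g : ℕ) (hg : 2 ≤ g) (L : Type) [Group L] (hfg : Group.FG L)
    (hrf : Group.ResiduallyFinite L) (h : NatBij L (SurfaceGroup g)) :
    Nonempty (L ≃* SurfaceGroup g) :=
  main p_T1 q_T3 p_T4a q_T4b SuUp.p_T6 hfg hrf hg ⟨h⟩

/-- **THE THEOREM**: the fundamental group of a closed orientable surface is profinitely rigid. -/
theorem surface_rigid (g : ℕ) : ProfinitelyRigid (SurfaceGroup g) :=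
  SuTop.rigid_of_main surface_main g

end Pool.Agent.SuAsm
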