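import Pool.Agent.Lib.MP_305fdd_al.Su.Asm.Tow
import Pool.Agent.Lib.MP_305fdd_al.Su.AA.Tree
import Pool.Agent.Lib.MP_305fdd_al.Su.Tr.All
import Pool.Agent.Lib.MP_305fdd_al.Su.E.Gen
import Pool.Agent.Lib.MP_305fdd_al.Genus

/-!
# MP_305fdd_al, surface groups, assembly: the subgroup `L'`

`L'` is the intersection of the kernels of all homomorphisms `L → ℤ/2`.  It is a surface group.
-/

set_option autoImplicit false

namespace Pool.Agent.SuAsm

open Matrix (SpecialLinearGroup)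
open Polynomial
open Pool.Agent.Lib.MP_305fdd_al Pool.Agent.MP_305fdd_al Pool.Agent.Su Pool.Agent.SuAA
  Pool.Agent.SuT Pool.Agent.SuUp Pool.Agent.SuE

section pk

variable {g : ℕ} {Λ Γ F : Type} [Group Λ] [Group Γ] [Field F] [Algebra (ZMod 2) F] {π : Λ →* Γ}
  {ρ : Γ →* SpecialLinearGroup (Fin 2) F}

theorem Pk.infinite (h : Pk g π ρ) : Infinite F := by
  by_contra hcon
  rw [not_infinite_iff_finite] at hcon
  have h1 : Algebra.IsAlgebraic (ZMod 2) F := inferInstance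
  have h2 := h.trF
  rw [trdeg_eq_zero, zero_add] at h2
  have h3 : (3 : ℕ) = 6 * g := by exact_mod_cast h2
  have := h.two
  omega

/-- the defect of polynomial deformations and nondefect -/
theorem ndf_of_not_dfc {A : Subgroup Γ} {z z' : Γ} (hz : z ∈ A) (hz' : z' ∈ A)
    (h : ¬ Dfc ρ A z z') : NDf ρ A z z' := by
  unfold Dfc at h
  push Not at h
  obtain ⟨r, h1, h2, h3⟩ := h
  refine ⟨F[X], F, inferInstance, inferInstance, inferInstance, inferInstance, RingHom.id F,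
    evalRingHom (0 : F), MonoidHom.mk' (fun a : A => r a) (fun a b => h1 a a.2 b b.2), hz, hz', ?_, ?_⟩
  · intro a
    have h4 : SpecialLinearGroup.map (RingHom.id F) (ρ a) = ρ a := by
      ext i j
      rfl
    rw [h4]
    exact h2 a a.2
  · exact h3

/-- (T5) free vertex groups: the quotient is the surface group -/
theorem surf_am (h : Pk g π ρ) {V : Type} [MulAction Γ V] {X : SimpleGraph V} {u v : V}
    (hX : Spl Γ X) (huv : X.Adj u v) (hoe : OE Γ X u v) (hno : ∀ x : Γ, x • u ≠ v)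
    (h1 : IsFreeGroup (MulAction.stabilizer Γ u)) (h2 : IsFreeGroup (MulAction.stabilizer Γ v)) :
    Nonempty (Γ ≃* SurfaceGroup g) := by
  have hg := h.two
  obtain ⟨Φ⟩ := h.nb
  have hfg := h.fg
  obtain ⟨⟨z, hz, hz1⟩, _⟩ := hX.mc u v huv
  exact surf_of_tree_am_free (by omega) Φ π h.surj h.kerSL hX.toTA huv hoe hno z hz1
    (lgOrd_of_inj hfg ρ h.inj z hz) h1 h2

theorem surf_hn (h : Pk g π ρ) {V : Type} [MulAction Γ V] {X : SimpleGraph V} {v : V} {t : Γ}
    (hX : HT Γ X v t) (h1 : IsFreeGroup (MulAction.stabilizer Γ v)) :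
    Nonempty (Γ ≃* SurfaceGroup g) := by
  have hg := h.two
  obtain ⟨Φ⟩ := h.nb
  have hfg := h.fg
  obtain ⟨⟨z, hz, hz1⟩, _⟩ := hX.mc
  exact surf_of_tree_hn_free (by omega) Φ π h.surj h.kerSL hX z hz1
    (lgOrd_of_inj hfg ρ h.inj z hz) h1

/-- (T2)-(T5): if the quotient is not bad it is the surface group -/
theorem surf_of_not_bad (t1 : S_T1) (t3 : S_T3) (t4a : S_T4a) (t4b : S_T4b) (h : Pk g π ρ)
    (hb : ¬ Bad Γ ρ) : Nonempty (Γ ≃* SurfaceGroup g) := by
  by_cases hone : ∀ (V : Type) [MulAction Γ V] (X : SimpleGraph V), Spl Γ X →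
      ∀ x y : V, ∃ h : Γ, h • x = y
  · by_cases hdfc : ∀ (V : Type) [MulAction Γ V] (X : SimpleGraph V) (v : V) (t : Γ), Spl Γ X →
        HT Γ X v t → ∀ z ∈ ES Γ v (t • v), Dfc ρ (MulAction.stabilizer Γ v) z (t⁻¹ * z * t)
    · exfalso
      apply hb
      refine ⟨?_, hone, hdfc⟩
      obtain ⟨V, _, X, u, v, h1, h2, _⟩ := t1 g Λ Γ F π ρ h
      exact ⟨V, _, X, h1, u, v, h2⟩
    · push Not at hdfc
      obtain ⟨V, _, X, v, t, h1, h2, z, hz, h3⟩ := hdfc
      have hz1 : z ∈ MulAction.stabilizer Γ v := hz.1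
      have hz2 : t⁻¹ * z * t ∈ MulAction.stabilizer Γ v := by
        rw [MulAction.mem_stabilizer_iff, mul_smul, mul_smul]
        have h4 : z • t • v = t • v := hz.2
        rw [h4, inv_smul_smul]
      exact surf_hn h h2 (t4b g Λ Γ F π ρ h V X v t h1 h2 z hz (ndf_of_not_dfc hz1 hz2 h3))
  · push Not at hone
    obtain ⟨V, _, X, h1, x, y, h2⟩ := hone
    obtain ⟨W, _, Y, h3, h4⟩ := t3 g Λ Γ F π ρ h V X h1 ⟨x, y, h2⟩
    rcases h4 with ⟨u, v, h5, h6, h7⟩ | ⟨v, t, h5, z, h6, h7⟩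
    · obtain ⟨h8, h9⟩ := t4a g Λ Γ F π ρ h W Y u v h3 h5 h6 h7
      exact surf_am h h3 h5 h6 h7 h8 h9
    · exact surf_hn h h5 (t4b g Λ Γ F π ρ h W Y v t h3 h5 z h6 h7)

end pk

/-- HOPF -/
theorem hopf {g : ℕ} {Λ Γ : Type} [Group Λ] [Group Γ] (hfg : Group.FG Λ)
    (hrf : Group.ResiduallyFinite Λ) (Φ : NatBij Λ (SurfaceGroup g)) (π : Λ →* Γ)
    (hπ : Function.Surjective π) (e : Γ ≃* SurfaceGroup g) : Nonempty (Λ ≃* SurfaceGroup g) := by
  have hfgS : Group.FG (SurfaceGroup g) :=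
    Group.fg_of_surjective (f := e.toMonoidHom.comp π) (e.surjective.comp hπ)
  have hsame : SameFiniteQuotients Λ (SurfaceGroup g) := by
    intro Q _ _
    constructor
    · rintro ⟨φ, hφ⟩
      refine ⟨Φ.toFun Q φ, ?_⟩
      rw [← MonoidHom.range_eq_top] at hφ ⊢
      rw [Φ.range_eq, hφ]
    · rintro ⟨φ, hφ⟩
      refine ⟨Φ.invFun Q φ, ?_⟩
      rw [← MonoidHom.range_eq_top] at hφ ⊢
      rw [← hφ]
      exact Φ.symm.range_eq φ
  have h1 := injective_of_surj hsame (e.toMonoidHom.comp π) (e.surjective.comp hπ)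
  exact ⟨MulEquiv.ofBijective (e.toMonoidHom.comp π) ⟨h1, e.surjective.comp hπ⟩⟩

/-! ### the subgroup `L'` -/

/-- the intersection of the kernels of all homomorphisms to `ℤ/2` -/
def Lp (L : Type) [Group L] : Subgroup L := ⨅ θ : L →* Multiplicative (ZMod 2), θ.ker

theorem mem_Lp {L : Type} [Group L] {x : L} :
    x ∈ Lp L ↔ ∀ θ : L →* Multiplicative (ZMod 2), θ x = 1 := by
  rw [Lp, Subgroup.mem_iInf]
  rfl

instance Lp_normal (L : Type) [Group L] : (Lp L).Normal := by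
  refine ⟨fun n hn x => ?_⟩
  rw [mem_Lp] at hn ⊢
  intro θ
  rw [map_mul, map_mul, hn θ, mul_one, map_inv, mul_inv_cancel]

theorem Lp_fin (L : Type) [Group L] [Group.FG L] : (Lp L).FiniteIndex := by
  have hf2 : Finite (Multiplicative (ZMod 2)) := inferInstanceAs (Finite (ZMod 2))
  have hfin : Finite (L →* Multiplicative (ZMod 2)) := finite_hom L _
  have h1 : (evQ L (Multiplicative (ZMod 2))).ker = Lp L := by
    ext x
    rw [mem_ker_evQ, mem_Lp]
  rw [← h1]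
  exact Subgroup.finiteIndex_ker _

theorem Lp_two (L : Type) [Group L] : IsPGroup 2 (L ⧸ Lp L) := by
  intro x
  obtain ⟨x, rfl⟩ := QuotientGroup.mk_surjective x
  refine ⟨1, ?_⟩
  rw [pow_one, ← QuotientGroup.mk_pow, QuotientGroup.eq_one_iff, mem_Lp]
  intro θ
  rw [map_pow]
  exact pow_card_eq_one' (G := Multiplicative (ZMod 2)) (x := θ x) ▸ (by
    have : Nat.card (Multiplicative (ZMod 2)) = 2 := Nat.card_zmod 2
    rw [this])

theorem Lp_index (L : Type) [Group L] [Group.FG L] : ∃ k, (Lp L).index = 2 ^ k := by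
  have := Lp_fin L
  have hfin : Finite (L ⧸ Lp L) := Subgroup.finite_quotient_of_finiteIndex
  have : Fact (Nat.Prime 2) := ⟨Nat.prime_two⟩
  obtain ⟨k, hk⟩ := (IsPGroup.iff_card (p := 2) (G := L ⧸ Lp L)).1 (Lp_two L)
  exact ⟨k, hk⟩

/-- `L'` is a surface group -/
theorem surf_Lp (t1 : S_T1) (t3 : S_T3) (t4a : S_T4a) (t4b : S_T4b) {L : Type} [Group L]
    (hfg : Group.FG L) (hrf : Group.ResiduallyFinite L) {g' : ℕ} (hg' : 2 ≤ g')
    (h : Nonempty (NatBij (Lp L) (SurfaceGroup g'))) : Nonempty (Lp L ≃* SurfaceGroup g') := by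
  have hfi := Lp_fin L
  have hfin : Finite (L ⧸ Lp L) := Subgroup.finite_quotient_of_finiteIndex
  have hfg' : Group.FG (Lp L) := inferInstance
  have hrf' : Group.ResiduallyFinite (Lp L) := inferInstance
  obtain ⟨Γ, F, _, _, _, π, ρ, P⟩ := exists_pk hg' hfg' h
  have hnb : ¬ Bad Γ ρ := by
    refine DEF' L Γ (Lp L) (Lp_normal L) π P.surj ?_ P.fg (Lp_two L) hfin ?_ F ρ
      (Pk.infinite P) P.nsc P.fiT
    · intro l k hk
      -- conjugation
      let c : Lp L →* Lp L :=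
        { toFun := fun k => ⟨l * k * l⁻¹, (Lp_normal L).conj_mem k k.2 l⟩
          map_one' := by
            apply Subtype.ext
            simp
          map_mul' := fun a b => by
            apply Subtype.ext
            simp }
      have h1 := P.ker_le F ((ρ.comp π).comp c) (MonoidHom.mem_ker.2 hk)
      apply P.inj
      rw [map_one]
      exact h1
    · intro θ k hk
      exact mem_Lp.1 hk θ
  obtain ⟨e⟩ := surf_of_not_bad t1 t3 t4a t4b P hnb
  obtain ⟨Φ⟩ := h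
  exact hopf hfg' hrf' Φ π P.surj e

/-- **THE MAIN THEOREM**, from the interface statements -/
theorem main (t1 : S_T1) (t3 : S_T3) (t4a : S_T4a) (t4b : S_T4b) (t6 : S_T6) {L : Type} [Group L]
    (hfg : Group.FG L) (hrf : Group.ResiduallyFinite L) {g : ℕ} (hg : 2 ≤ g)
    (h : Nonempty (NatBij L (SurfaceGroup g))) : Nonempty (L ≃* SurfaceGroup g) := by
  obtain ⟨k, hk⟩ := Lp_index L
  obtain ⟨⟨g', hg', h1⟩, h2⟩ := tower t6 k L g hg hfg h (Lp L) hk
  obtain ⟨e⟩ := surf_Lp t1 t3 t4a t4b hfg hrf hg' h1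
  obtain ⟨n, rfl⟩ : ∃ n, g' = n + 2 := ⟨g' - 2, by omega⟩
  exact h2 ⟨n, ⟨e⟩⟩

theorem rigid (t1 : S_T1) (t3 : S_T3) (t4a : S_T4a) (t4b : S_T4b) (t6 : S_T6) {g : ℕ}
    (hg : 2 ≤ g) : ProfinitelyRigid (SurfaceGroup g) := by
  intro L _ hL
  have hfg := hL.1
  have hfgS : Group.FG (SurfaceGroup g) := by
    have : Group.FG (FreeGroup (Fin g ⊕ Fin g)) := inferInstance
    exact Group.fg_of_surjective (surfMk_surjective g)
  exact main t1 t3 t4a t4b t6 hfg hL.2.1 hg (exists_natBij hL.2.2)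

end Pool.Agent.SuAsm
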