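import Pool.Agent.Lib.MP_305fdd_al.Su.Asm.T4c
import Pool.Agent.Lib.MP_305fdd_al.Su.CH.End

/-!
# MP_305fdd_al, surface groups: (T4) for nondefect HNN extensions, final form
-/

set_option autoImplicit false

namespace Pool.Agent.SuAsm

/-- the vertex group of a nondefect HNN extension is free -/
theorem p_HF : HF := by
  intro g Λ Γ F _ _ _ _ π ρ P A zm zp s h hA R F' _ _ _ _ i s' r hr hne
  obtain ⟨e⟩ := SuCH.hnn_free P h le_rfl hA i s' r hr hne
  exact IsFreeGroup.ofMulEquiv e.symm

/-- (T4b) -/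
theorem p_T4b : S_T4b := t4b_hf p_HF

end Pool.Agent.SuAsm
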