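import Pool.Agent.Lib.MP_305fdd_al.Su.Asm.Final

/-!
# MP_305fdd_al: fundamental groups of closed orientable surfaces are profinitely rigid
(the former hand-in SurfaceGroups, now contained in LatticesOfPSL2R)
-/

set_option autoImplicit false

namespace Pool.Agent.SuAsm

open Pool.Agent.MP_305fdd_al

/-- Every group isomorphic to the fundamental group of a closed orientable surface, that is to
`⟨a_1, b_1, …, a_g, b_g | [a_1, b_1] ⋯ [a_g, b_g]⟩` for some `g`, is profinitely rigid in the absolute
sense. -/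
theorem rigid_pres (g : ℕ) (Γ : Type) [Group Γ]
    (e : PresentedGroup ({(List.ofFn fun i : Fin g =>
      (FreeGroup.of (Sum.inl i) * FreeGroup.of (Sum.inr i) * (FreeGroup.of (Sum.inl i))⁻¹ *
        (FreeGroup.of (Sum.inr i))⁻¹ : FreeGroup (Fin g ⊕ Fin g))).prod} :
      Set (FreeGroup (Fin g ⊕ Fin g))) ≃* Γ) : ProfinitelyRigid Γ :=
  Pool.Agent.VF.rigid_of_equiv e (Pool.Agent.SuAsm.surface_rigid g)

end Pool.Agent.SuAsm
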