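import Pool.Agent.Lib.MP_305fdd_al.Su.E.Use
import Pool.Agent.Lib.MP_305fdd_al.Su.Dual.ZC

/-!
# MP_305fdd_al, surface groups, assembly: the ranks of free vertex groups

`rank_am`, `rank_hn`: the ranks of the free vertex groups of a splitting over a cyclic group are as for
surfaces.
-/

set_option autoImplicit false

namespace Pool.Agent.SuAsm

open Pool.Agent.Lib.MP_305fdd_al Pool.Agent.SuD Pool.Agent.SuE Pool.Agent.Su

theorem card_le_ker {M P : Type} [AddCommGroup M] [AddCommGroup P] [Finite M] [Finite P]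
    (f : M →+ P) : Nat.card M ≤ Nat.card f.ker * Nat.card P := by
  rw [← AddSubgroup.card_mul_index f.ker, AddSubgroup.index_ker]
  exact Nat.mul_le_mul_left _ (Nat.card_le_card_of_injective _ Subtype.val_injective)

section crs

variable {Q P : Type} [Group Q] [AddCommGroup P] [DistribMulAction Q P]

/-- crossed homomorphisms of a free group -/
theorem crs_free {A X : Type} [Group A] (e : FreeGroup X ≃* A) (θ : A →* Q) :
    Nonempty (Crs θ P ≃ (X → P)) := by
  let f : (X → P) → (A →* AF Q P) := fun u =>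
    (FreeGroup.lift fun x => (⟨u x, θ (e (FreeGroup.of x))⟩ : AF Q P)).comp e.symm.toMonoidHom
  have hf : ∀ u, (AF.pr Q P).comp (f u) = θ := by
    intro u
    have h1 : (AF.pr Q P).comp (FreeGroup.lift fun x =>
        (⟨u x, θ (e (FreeGroup.of x))⟩ : AF Q P)) = θ.comp e.toMonoidHom := by
      ext x
      simp
    ext a
    have h2 := DFunLike.congr_fun h1 (e.symm a)
    have h3 : θ (e (e.symm a)) = θ a := by rw [MulEquiv.apply_symm_apply]
    exact h2.trans h3
  refine ⟨(crsEquiv θ P).trans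
    { toFun := fun ψ x => (ψ.1 (e (FreeGroup.of x))).v
      invFun := fun u => ⟨f u, hf u⟩
      left_inv := ?_
      right_inv := ?_ }⟩
  · intro ψ
    apply Subtype.ext
    have h1 : (FreeGroup.lift fun x => (⟨(ψ.1 (e (FreeGroup.of x))).v, θ (e (FreeGroup.of x))⟩ :
        AF Q P)) = ψ.1.comp e.toMonoidHom := by
      ext x
      · simp
      · simp [lift_q]
    ext a
    · have h2 := congrArg AF.v (DFunLike.congr_fun h1 (e.symm a))
      simpa [f] using h2
    · have h2 := congrArg AF.q (DFunLike.congr_fun h1 (e.symm a))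
      simpa [f] using h2
  · intro u
    funext x
    simp [f]

theorem card_crs_free {A X : Type} [Group A] [Fintype X] (e : FreeGroup X ≃* A) (θ : A →* Q) :
    Nat.card (Crs θ P) = Nat.card P ^ Fintype.card X := by
  obtain ⟨E⟩ := crs_free (P := P) e θ
  rw [Nat.card_congr E, Nat.card_fun, Nat.card_eq_fintype_card (α := X)]

theorem finite_crs {A X : Type} [Group A] [Finite X] [Finite P] (e : FreeGroup X ≃* A) (θ : A →* Q) :
    Finite (Crs θ P) := by
  obtain ⟨E⟩ := crs_free (P := P) e θ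
  exact Finite.of_equiv _ E.symm

/-- crossed homomorphisms of an amalgam -/
theorem crs_am {G : Type} [Group G] {A A' : Subgroup G} {z : G} (h : AmUP G A A' z) (θ : G →* Q)
    [Finite P] [Finite (Crs (θ.comp A.subtype) P)] [Finite (Crs (θ.comp A'.subtype) P)] :
    Nat.card (Crs (θ.comp A.subtype) P) * Nat.card (Crs (θ.comp A'.subtype) P) ≤
      Nat.card (Crs θ P) * Nat.card P := by
  let δ : Crs (θ.comp A.subtype) P × Crs (θ.comp A'.subtype) P →+ P :=
    { toFun := fun c => c.1.1 ⟨z, h.mem⟩ - c.2.1 ⟨z, h.mem'⟩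
      map_zero' := sub_self 0
      map_add' := by
        intro c d
        change (c.1.1 _ + d.1.1 _) - (c.2.1 _ + d.2.1 _) = _
        abel }
  have h1 := card_le_ker δ
  rw [Nat.card_prod] at h1
  refine h1.trans (Nat.mul_le_mul_right _ ?_)
  have key : ∀ c : δ.ker, ∃ d : Crs θ P, (∀ a : A, d.1 a = c.1.1.1 a) ∧ ∀ a : A', d.1 a = c.1.2.1 a := by
    rintro ⟨⟨c, c'⟩, hc⟩
    have hc0 : c.1 ⟨z, h.mem⟩ = c'.1 ⟨z, h.mem'⟩ := sub_eq_zero.1 hc
    obtain ⟨F, hF, hF'⟩ := h.ext (AF Q P) (Crs.hom c) (Crs.hom c') (AF.ext hc0 rfl)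
    have hq : (AF.pr Q P).comp F = θ := by
      have h2 : A ⊔ A' ≤ ((AF.pr Q P).comp F).eqLocus θ := by
        rw [sup_le_iff]
        constructor
        · intro a ha
          change (F a).q = θ a
          rw [hF ⟨a, ha⟩]
          rfl
        · intro a ha
          change (F a).q = θ a
          rw [hF' ⟨a, ha⟩]
          rfl
      rw [h.gen] at h2
      ext a
      exact h2 (Subgroup.mem_top a)
    refine ⟨(crsEquiv θ P).symm ⟨F, hq⟩, fun a => ?_, fun a => ?_⟩
    · change (F a).v = _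
      rw [hF a]
      rfl
    · change (F a).v = _
      rw [hF' a]
      rfl
  choose d hd hd' using key
  have hfin : Finite (Crs θ P) := by
    refine Finite.of_injective (fun c : Crs θ P =>
      ((⟨fun a => c.1 a, fun a b => c.2 a b⟩ : Crs (θ.comp A.subtype) P),
        (⟨fun a => c.1 a, fun a b => c.2 a b⟩ : Crs (θ.comp A'.subtype) P))) ?_
    intro c c' hcc
    have e1 : ∀ a : A, c.1 a = c'.1 a := fun a =>
      congrFun (congrArg Subtype.val (congrArg Prod.fst hcc)) a
    have e2 : ∀ a : A', c.1 a = c'.1 a := fun a =>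
      congrFun (congrArg Subtype.val (congrArg Prod.snd hcc)) a
    have h2 : A ⊔ A' ≤ (Crs.hom c).eqLocus (Crs.hom c') := by
      rw [sup_le_iff]
      exact ⟨fun a ha => AF.ext (e1 ⟨a, ha⟩) rfl, fun a ha => AF.ext (e2 ⟨a, ha⟩) rfl⟩
    rw [h.gen] at h2
    apply Subtype.ext
    funext a
    exact congrArg AF.v (h2 (Subgroup.mem_top a))
  refine Nat.card_le_card_of_injective d ?_
  intro c c' hcc
  apply Subtype.ext
  refine Prod.ext ?_ ?_
  · apply Subtype.ext
    funext a
    rw [← hd c a, ← hd c' a, hcc]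
  · apply Subtype.ext
    funext a
    rw [← hd' c a, ← hd' c' a, hcc]

/-- crossed homomorphisms of an HNN extension -/
theorem crs_hn {G : Type} [Group G] {A : Subgroup G} {t z₀ z₁ : G} (h : HnUP G A t z₀ z₁)
    (θ : G →* Q) [Finite P] [Finite (Crs (θ.comp A.subtype) P)] :
    Nat.card (Crs (θ.comp A.subtype) P) * Nat.card P ≤ Nat.card (Crs θ P) * Nat.card P := by
  let δ : Crs (θ.comp A.subtype) P × P →+ P :=
    { toFun := fun c => (c.2 - θ z₁ • c.2) + θ t • c.1.1 ⟨z₀, h.mem0⟩ - c.1.1 ⟨z₁, h.mem1⟩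
      map_zero' := by
        change ((0 : P) - θ z₁ • (0 : P)) + θ t • (0 : P) - 0 = 0
        simp
      map_add' := by
        intro c d
        change ((c.2 + d.2) - θ z₁ • (c.2 + d.2)) + θ t • (c.1.1 _ + d.1.1 _) -
          (c.1.1 _ + d.1.1 _) = _
        simp only [smul_add]
        abel }
  have h1 := card_le_ker δ
  rw [Nat.card_prod] at h1
  refine h1.trans (Nat.mul_le_mul_right _ ?_)
  have hrel : θ t * θ z₀ * (θ t)⁻¹ = θ z₁ := by
    rw [← map_inv, ← map_mul, ← map_mul, h.rel]
  have key : ∀ c : δ.ker, ∃ d : Crs θ P, (∀ a : A, d.1 a = c.1.1.1 a) ∧ d.1 t = c.1.2 := by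
    rintro ⟨⟨c, τ⟩, hc⟩
    have hc0 : (τ - θ z₁ • τ) + θ t • c.1 ⟨z₀, h.mem0⟩ - c.1 ⟨z₁, h.mem1⟩ = 0 := hc
    obtain ⟨F, hF, hFt⟩ := h.ext (AF Q P) (Crs.hom c) ⟨τ, θ t⟩ (by
      refine AF.ext ?_ ?_
      · change τ + θ t • c.1 ⟨z₀, h.mem0⟩ + (θ t * θ z₀) • -((θ t)⁻¹ • τ) = c.1 ⟨z₁, h.mem1⟩
        rw [smul_neg, smul_smul, hrel, ← sub_eq_zero, ← hc0]
        abel
      · exact hrel)
    have hq : (AF.pr Q P).comp F = θ := by
      have h2 : A ⊔ Subgroup.zpowers t ≤ ((AF.pr Q P).comp F).eqLocus θ := by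
        rw [sup_le_iff]
        constructor
        · intro a ha
          change (F a).q = θ a
          rw [hF ⟨a, ha⟩]
          rfl
        · apply Subgroup.zpowers_le_of_mem
          change (F t).q = θ t
          rw [hFt]
      rw [h.gen] at h2
      ext a
      exact h2 (Subgroup.mem_top a)
    refine ⟨(crsEquiv θ P).symm ⟨F, hq⟩, fun a => ?_, ?_⟩
    · change (F a).v = _
      rw [hF a]
      rfl
    · change (F t).v = _
      rw [hFt]
  choose d hd hd' using key
  have hfin : Finite (Crs θ P) := by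
    refine Finite.of_injective (fun c : Crs θ P =>
      ((⟨fun a => c.1 a, fun a b => c.2 a b⟩ : Crs (θ.comp A.subtype) P), c.1 t)) ?_
    intro c c' hcc
    have e1 : ∀ a : A, c.1 a = c'.1 a := fun a =>
      congrFun (congrArg Subtype.val (congrArg Prod.fst hcc)) a
    have e2 : c.1 t = c'.1 t := congrArg Prod.snd hcc
    have h2 : A ⊔ Subgroup.zpowers t ≤ (Crs.hom c).eqLocus (Crs.hom c') := by
      rw [sup_le_iff]
      exact ⟨fun a ha => AF.ext (e1 ⟨a, ha⟩) rfl, Subgroup.zpowers_le_of_mem (AF.ext e2 rfl)⟩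
    rw [h.gen] at h2
    apply Subtype.ext
    funext a
    exact congrArg AF.v (h2 (Subgroup.mem_top a))
  refine Nat.card_le_card_of_injective d ?_
  intro c c' hcc
  apply Subtype.ext
  refine Prod.ext ?_ ?_
  · apply Subtype.ext
    funext a
    rw [← hd c a, ← hd c' a, hcc]
  · rw [← hd' c, ← hd' c', hcc]

end crs

/-- the number of crossed homomorphisms with values in `ℤ/3` with a nontrivial sign -/
theorem crs_three {g : ℕ} {L G : Type} [Group L] [Group G] (hg : 1 ≤ g)
    (Φ : NatBij L (SurfaceGroup g)) (π : L →* G) (hπ : Function.Surjective π)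
    (θ : G →* ℤˣ) (hθ : θ ≠ 1) : Nat.card (Crs θ (ZMod 3)) ≤ 3 ^ (2 * g - 1) := by
  obtain ⟨s⟩ := Su.nonempty_surfG g
  have h1 := card_Crs (natBijCongr Φ s) (θ.comp π) (ZMod 3)
  -- the image of the augmentation is everything
  have hex : ∃ x : G, θ x = -1 := by
    by_contra hcon
    apply hθ
    ext x
    rcases Int.units_eq_one_or (θ x) with h | h
    · rw [h]
      rfl
    · exact absurd ⟨x, h⟩ hcon
  obtain ⟨x, hx⟩ := hex
  obtain ⟨y, rfl⟩ := hπ x
  have h2 : Nat.card (IP (ZMod 3) (θ.comp π).range) = 3 := by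
    have : IP (ZMod 3) (θ.comp π).range = ⊤ := by
      rw [eq_top_iff]
      intro p _
      have h3 : (-p) - θ (π y) • (-p) ∈ IP (ZMod 3) (θ.comp π).range :=
        sub_mem_IP (H := (θ.comp π).range) (q := θ (π y)) ⟨y, rfl⟩ (-p)
      rw [hx] at h3
      have h4 : ∀ p : ZMod 3, (-p) - (-1 : ℤˣ) • (-p) = p := by decide
      rwa [h4] at h3
    rw [this, AddSubgroup.card_top, Nat.card_zmod]
  rw [h2, Nat.card_zmod] at h1
  have h4 : 3 ^ (2 * g) = 3 ^ (2 * g - 1) * 3 := by
    rw [← pow_succ]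
    congr 1
    omega
  rw [h4] at h1
  have h5 : Nat.card (Crs (θ.comp π) (ZMod 3)) = 3 ^ (2 * g - 1) := by omega
  rw [← h5]
  have hfin : Finite (Crs (θ.comp π) (ZMod 3)) := Nat.finite_of_card_ne_zero (by
    rw [h5]
    positivity)
  refine Nat.card_le_card_of_injective (fun c : Crs θ (ZMod 3) =>
    (⟨fun y => c.1 (π y), fun a b => by
      change c.1 (π (a * b)) = c.1 (π a) + θ (π a) • c.1 (π b)
      rw [map_mul]
      exact c.2 _ _⟩ : Crs (θ.comp π) (ZMod 3))) ?_
  intro c c' h
  apply Subtype.ext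
  funext x
  obtain ⟨y, rfl⟩ := hπ x
  exact congrFun (congrArg Subtype.val h) y

/-- a nontrivial sign -/
theorem exists_sign {g : ℕ} {L G : Type} [Group L] [Group G] [Group.FG G] (hg : 1 ≤ g)
    (Φ : NatBij L (SurfaceGroup g)) (π : L →* G) (hπ : Function.Surjective π)
    (hk : SuPts.KerSL π) : ∃ θ : G →* ℤˣ, θ ≠ 1 := by
  have h1 := SuPts.card_cyc hπ hk Φ 2 two_pos
  by_contra hcon
  push Not at hcon
  have hsub : ∀ f : G →* Multiplicative (ZMod 2), f = 1 := by
    intro f
    -- the isomorphism with the signs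
    let j : Multiplicative (ZMod 2) →* ℤˣ :=
      { toFun := fun x => if x = 1 then 1 else -1
        map_one' := if_pos rfl
        map_mul' := by decide }
    have hj : ∀ x, j x = 1 → x = 1 := by
      intro x hx
      by_contra hne
      have : j x = -1 := if_neg hne
      rw [this] at hx
      exact absurd hx (by decide)
    have h2 := hcon (j.comp f)
    ext x
    have h3 := DFunLike.congr_fun h2 x
    rw [hj (f x) h3]
    rfl
  have h4 : Nat.card (G →* Multiplicative (ZMod 2)) = 1 := by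
    rw [Nat.card_eq_one_iff_unique]
    exact ⟨⟨fun a b => by rw [hsub a, hsub b]⟩, ⟨1⟩⟩
  rw [h4] at h1
  have : 1 < 2 ^ (2 * g) := Nat.one_lt_two_pow (by omega)
  omega

theorem card_hom_free {A X : Type} [Group A] [Fintype X] (e : FreeGroup X ≃* A) (Q : Type)
    [Group Q] : Nat.card (A →* Q) = Nat.card Q ^ Fintype.card X := by
  have e1 : (A →* Q) ≃ (X → Q) :=
    (MulEquiv.monoidHomCongrLeftEquiv e.symm).trans FreeGroup.lift.symm
  rw [Nat.card_congr e1, Nat.card_fun, Nat.card_eq_fintype_card (α := X)]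

variable {g : ℕ} {L G : Type} [Group L] [Group G] [Group.FG G] (hg : 1 ≤ g) (Φ : NatBij L (SurfaceGroup g))
  (π : L →* G) (hπ : Function.Surjective π) (hk : SuPts.KerSL π)

include hg Φ hπ hk

/-- the ranks of the vertex groups of an amalgam -/
theorem rank_am {X X' : Type} [Fintype X] [Fintype X'] {A A' : Subgroup G} {z : G}
    (h : AmUP G A A' z) (e : FreeGroup X ≃* A) (e' : FreeGroup X' ≃* A') :
    Fintype.card X + Fintype.card X' = 2 * g := by
  obtain ⟨θ, hθ⟩ := exists_sign hg Φ π hπ hk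
  have : Finite (Crs (θ.comp A.subtype) (ZMod 3)) := finite_crs e _
  have : Finite (Crs (θ.comp A'.subtype) (ZMod 3)) := finite_crs e' _
  have h1 := crs_am h θ (P := ZMod 3)
  rw [card_crs_free e, card_crs_free e', Nat.card_zmod, ← pow_add] at h1
  have h2 := crs_three hg Φ π hπ θ hθ
  have h3 : 3 ^ (Fintype.card X + Fintype.card X') ≤ 3 ^ (2 * g) := by
    refine (h1.trans (Nat.mul_le_mul_right _ h2)).trans_eq ?_
    rw [← pow_succ]
    congr 1
    omega
  have h4 : Fintype.card X + Fintype.card X' ≤ 2 * g := (Nat.pow_le_pow_iff_right (by norm_num)).1 h3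
  have h5 := SuPts.card_cyc hπ hk Φ 2 two_pos
  have h6 : Nat.card (G →* Multiplicative (ZMod 2)) ≤
      Nat.card ((A →* Multiplicative (ZMod 2)) × (A' →* Multiplicative (ZMod 2))) := by
    have : Finite (A →* Multiplicative (ZMod 2)) := by
      refine Nat.finite_of_card_ne_zero ?_
      rw [card_hom_free e]
      exact pow_ne_zero _ (by
        have : Nat.card (Multiplicative (ZMod 2)) = 2 := Nat.card_zmod 2
        rw [this]
        norm_num)
    have : Finite (A' →* Multiplicative (ZMod 2)) := by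
      refine Nat.finite_of_card_ne_zero ?_
      rw [card_hom_free e']
      exact pow_ne_zero _ (by
        have : Nat.card (Multiplicative (ZMod 2)) = 2 := Nat.card_zmod 2
        rw [this]
        norm_num)
    refine Nat.card_le_card_of_injective (fun f => (f.comp A.subtype, f.comp A'.subtype)) ?_
    intro f f' hf
    have e1 : f.comp A.subtype = f'.comp A.subtype := congrArg Prod.fst hf
    have e2 : f.comp A'.subtype = f'.comp A'.subtype := congrArg Prod.snd hf
    have h7 : A ⊔ A' ≤ f.eqLocus f' := by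
      rw [sup_le_iff]
      exact ⟨fun a ha => DFunLike.congr_fun e1 (⟨a, ha⟩ : A),
        fun a ha => DFunLike.congr_fun e2 (⟨a, ha⟩ : A')⟩
    rw [h.gen] at h7
    ext a
    exact congrArg _ (h7 (Subgroup.mem_top a))
  rw [h5, Nat.card_prod, card_hom_free e, card_hom_free e'] at h6
  have h8 : Nat.card (Multiplicative (ZMod 2)) = 2 := Nat.card_zmod 2
  rw [h8, ← pow_add] at h6
  have h9 : 2 * g ≤ Fintype.card X + Fintype.card X' := (Nat.pow_le_pow_iff_right (by norm_num)).1 h6
  omega

/-- the rank of the vertex group of an HNN extension -/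
theorem rank_hn {X : Type} [Fintype X] {A : Subgroup G} {t z₀ z₁ : G}
    (h : HnUP G A t z₀ z₁) (e : FreeGroup X ≃* A) : Fintype.card X + 1 = 2 * g := by
  obtain ⟨θ, hθ⟩ := exists_sign hg Φ π hπ hk
  have : Finite (Crs (θ.comp A.subtype) (ZMod 3)) := finite_crs e _
  have h1 := crs_hn h θ (P := ZMod 3)
  rw [card_crs_free e, Nat.card_zmod, ← pow_succ] at h1
  have h2 := crs_three hg Φ π hπ θ hθ
  have h3 : 3 ^ (Fintype.card X + 1) ≤ 3 ^ (2 * g) := by
    refine (h1.trans (Nat.mul_le_mul_right _ h2)).trans_eq ?_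
    rw [← pow_succ]
    congr 1
    omega
  have h4 : Fintype.card X + 1 ≤ 2 * g := (Nat.pow_le_pow_iff_right (by norm_num)).1 h3
  have h5 := SuPts.card_cyc hπ hk Φ 2 two_pos
  have h8 : Nat.card (Multiplicative (ZMod 2)) = 2 := Nat.card_zmod 2
  have hf2 : Finite (Multiplicative (ZMod 2)) := inferInstanceAs (Finite (ZMod 2))
  have h6 : Nat.card (G →* Multiplicative (ZMod 2)) ≤
      Nat.card ((A →* Multiplicative (ZMod 2)) × Multiplicative (ZMod 2)) := by
    have : Finite (A →* Multiplicative (ZMod 2)) := by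
      refine Nat.finite_of_card_ne_zero ?_
      rw [card_hom_free e]
      exact pow_ne_zero _ (by
        rw [h8]
        norm_num)
    refine Nat.card_le_card_of_injective (fun f => (f.comp A.subtype, f t)) ?_
    intro f f' hf
    have e1 : f.comp A.subtype = f'.comp A.subtype := congrArg Prod.fst hf
    have e2 : f t = f' t := congrArg Prod.snd hf
    have h7 : A ⊔ Subgroup.zpowers t ≤ f.eqLocus f' := by
      rw [sup_le_iff]
      exact ⟨fun a ha => DFunLike.congr_fun e1 (⟨a, ha⟩ : A), Subgroup.zpowers_le_of_mem e2⟩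
    rw [h.gen] at h7
    ext a
    exact congrArg _ (h7 (Subgroup.mem_top a))
  rw [h5, Nat.card_prod, card_hom_free e, h8, ← pow_succ] at h6
  have h9 : 2 * g ≤ Fintype.card X + 1 := (Nat.pow_le_pow_iff_right (by norm_num)).1 h6
  omega

end Pool.Agent.SuAsm
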