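import Pool.Agent.Lib.MP_305fdd_al.Su.CM.Free
import Pool.Agent.Lib.MP_305fdd_al.Su.Asm.Stm

/-!
# MP_305fdd_al, surface groups: (T4) for amalgams

`t4a_of`: (T4a) from Lemma G.
-/

set_option autoImplicit false

namespace Pool.Agent.SuAsm

open Matrix (SpecialLinearGroup)
open Pool.Agent.SuAA

/-- LEMMA G for the package: for every finitely generated non-abelian subgroup a Cartier operator is
nilpotent on an ideal of the ring of the traces -/
def S_G : Prop :=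
  ∀ (g : ℕ) (Λ Γ F : Type) [Group Λ] [Group Γ] [Field F] [Algebra (ZMod 2) F] (π : Λ →* Γ)
    (ρ : Γ →* SpecialLinearGroup (Fin 2) F), Pk g π ρ → SuFin.NilS ρ

/-- (T4a) -/
theorem t4a_of (hG : S_G) : S_T4a := by
  intro g Λ Γ F _ _ _ _ π ρ P V _ X u v hS huv hoe hno
  obtain ⟨b, b', -, -, -, ⟨e⟩, ⟨e'⟩⟩ := SuCM.free_tree_am P (hG g Λ Γ F π ρ P) hS huv hoe hno
  exact ⟨IsFreeGroup.ofMulEquiv e.symm, IsFreeGroup.ofMulEquiv e'.symm⟩

end Pool.Agent.SuAsm
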