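import Pool.Agent.Lib.MP_305fdd_al.Su.Asm.Stm
import Pool.Agent.Lib.MP_305fdd_al.Su.Asm.P4a
import Pool.Agent.Lib.MP_305fdd_al.Su.T4.Am
import Pool.Agent.Lib.MP_305fdd_al.Su.T4.NDf

/-!
# MP_305fdd_al, surface groups: (T4) for nondefect HNN extensions

`CMH'`: class membership of the vertex group of a nondefect HNN extension, in the package of the cyclic
cover of degree five.  `t4b_of`: (T4b) from `CMH'`.
-/

set_option autoImplicit false

namespace Pool.Agent.SuAsm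

open Matrix (SpecialLinearGroup)
open Pool.Agent.Lib.MP_305fdd_al Pool.Agent.Su Pool.Agent.SuAA Pool.Agent.SuT Pool.Agent.SuUp
  Pool.Agent.FrN Pool.Agent.SuCM

/-- the trace of powers -/
theorem ndf_pow {Γ F : Type} [Group Γ] [Field F] {ρ : Γ →* SpecialLinearGroup (Fin 2) F}
    {A : Subgroup Γ} {z z' : Γ} (hz : z ∈ A) (hz' : z' ∈ A) (n : ℤ)
    (h : NDf ρ A (z ^ n) (z' ^ n)) : NDf ρ A z z' := by
  obtain ⟨R, F', _, _, _, _, i, s, r, h2, h3, h1, h4⟩ := h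
  refine ⟨R, F', inferInstance, inferInstance, inferInstance, inferInstance, i, s, r, hz, hz', h1,
    fun h5 => h4 ?_⟩
  have e1 : (⟨z ^ n, h2⟩ : A) = ⟨z, hz⟩ ^ n := rfl
  have e2 : (⟨z' ^ n, h3⟩ : A) = ⟨z', hz'⟩ ^ n := rfl
  rw [e1, e2, map_zpow, map_zpow]
  exact SuT4.trace_zpow_eq h5 n

/-- CM-HNN: the vertex group `A` of a nondefect HNN extension is a subgroup of a package group such
that the restriction of the generic representation has the points and the tangent vectors of the free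
group of rank `b` -/
def CMH' : Prop :=
  ∀ (g : ℕ) (Λ Γ F : Type) [Group Λ] [Group Γ] [Field F] [Algebra (ZMod 2) F]
    (π : Λ →* Γ) (ρ : Γ →* SpecialLinearGroup (Fin 2) F), Pk g π ρ →
    ∀ (A : Subgroup Γ) (t z : Γ), SuE.HnUP Γ A t (t⁻¹ * z * t) z → A.FG →
    (¬ ∀ x ∈ A, ∀ y ∈ A, x * y = y * x) → z ≠ 1 → MC (Subgroup.zpowers z) →
    NDf ρ A z (t⁻¹ * z * t) →
    ∃ (g' : ℕ) (Λ' K F' : Type) (_ : Group Λ') (_ : Group K) (_ : Field F') (_ : Algebra (ZMod 2) F')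
      (π' : Λ' →* K) (ρ' : K →* SpecialLinearGroup (Fin 2) F') (A' : Subgroup K),
      Pk g' π' ρ' ∧ Nonempty (A' ≃* A) ∧ Group.FG A' ∧ ∃ b : ℕ,
      Algebra.trdeg (ZMod 2) (OO 2 (ρ'.comp A'.subtype)) = ((3 * b : ℕ) : Cardinal) ∧
      Nat.card (A' →* Multiplicative (ZMod 2)) = 2 ^ b ∧ Pts (ρ'.comp A'.subtype) ∧ Tng A' (3 * b)

/-- (T4b) -/
theorem t4b_of (hcm : CMH') : S_T4b := by
  intro g Λ Γ F _ _ _ _ π ρ P V _ X v t hS h z hz hnd
  obtain ⟨z₀, hz1, hz0, hZ⟩ := SuT4.exists_z h.mc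
  have h1 := SuE.hnUP_of_tree h z₀ hZ
  rw [hZ] at hz
  obtain ⟨n, rfl⟩ := hz
  have h2 : t⁻¹ * z₀ ^ n * t = (t⁻¹ * z₀ * t) ^ n := by
    have h3 := conj_zpow (a := t⁻¹) (b := z₀) (i := n)
    rw [inv_inv] at h3
    exact h3.symm
  have hnd' : NDf ρ (MulAction.stabilizer Γ v) z₀ (t⁻¹ * z₀ * t) := by
    refine ndf_pow h1.mem1 h1.mem0 n ?_
    rw [← h2]
    exact hnd
  have hmc : MC (Subgroup.zpowers z₀) := hZ ▸ h.mc
  obtain ⟨g', Λ', K, F', _, _, _, _, π', ρ', A', P', ⟨e⟩, hfg, b, h3, h4, h5, h6⟩ :=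
    hcm g Λ Γ F π ρ P _ t z₀ h1 (hS.fg v) (SuT4.na_of (hS.na v)) hz1 hmc hnd'
  have h7 : Function.Injective (ρ'.comp A'.subtype) := P'.inj.comp Subtype.val_injective
  have h8 : SuFin.NilS ρ' := p_G g' Λ' K F' π' ρ' P'
  obtain ⟨f⟩ := SuFin.free_of_pts h7 h3 h4 h5 h6 (h8.sub A')
  exact IsFreeGroup.ofMulEquiv (f.symm.trans e)

end Pool.Agent.SuAsm
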