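import Pool.Agent.Lib.MP_305fdd_al.Su.Asm.Stm
import Pool.Agent.Lib.MP_305fdd_al.Su.Cov.Main

/-!
# MP_305fdd_al, surface groups, assembly: towers of index two subgroups
-/

set_option autoImplicit false

namespace Pool.Agent.SuAsm

open Pool.Agent.Lib.MP_305fdd_al Pool.Agent.MP_305fdd_al Pool.Agent.Su

theorem one_ne_gen : (1 : Multiplicative (ZMod 2)) ≠ Multiplicative.ofAdd 1 := by decide

/-- a group with a nontrivial quotient of order `2 ^ (k + 1)` has a subgroup of index two between -/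
theorem exists_theta {L : Type} [Group L] (M : Subgroup L) [M.Normal] (k : ℕ)
    (hM : M.index = 2 ^ (k + 1)) : ∃ θ : L →* Multiplicative (ZMod 2), θ ≠ 1 ∧ M ≤ θ.ker := by
  have hfin : Finite (L ⧸ M) := Nat.finite_of_card_ne_zero (by
    have : Nat.card (L ⧸ M) = 2 ^ (k + 1) := hM
    rw [this]
    positivity)
  have hcard : Nat.card (L ⧸ M) = 2 ^ (k + 1) := hM
  obtain ⟨K, hK⟩ := Sylow.exists_subgroup_card_pow_prime 2 (G := L ⧸ M) (n := k)
    (by rw [hcard]; exact pow_dvd_pow 2 (Nat.le_succ k))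
  have hidx : K.index = 2 := by
    have h1 := K.card_mul_index
    rw [hK, hcard, pow_succ] at h1
    exact Nat.eq_of_mul_eq_mul_left (by positivity) h1
  have hn : K.Normal := Subgroup.normal_of_index_eq_two hidx
  have : Fact (Nat.Prime 2) := ⟨Nat.prime_two⟩
  let e : ((L ⧸ M) ⧸ K) ≃* Multiplicative (ZMod 2) := mulEquivOfPrimeCardEq (p := 2) hidx
    (Nat.card_zmod 2)
  refine ⟨e.toMonoidHom.comp ((QuotientGroup.mk' K).comp (QuotientGroup.mk' M)), ?_, ?_⟩
  · intro h
    have h1 : Function.Surjective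
        (e.toMonoidHom.comp ((QuotientGroup.mk' K).comp (QuotientGroup.mk' M))) :=
      e.surjective.comp ((QuotientGroup.mk'_surjective K).comp (QuotientGroup.mk'_surjective M))
    obtain ⟨x, hx⟩ := h1 (Multiplicative.ofAdd 1)
    rw [h, MonoidHom.one_apply] at hx
    exact one_ne_gen hx
  · intro x hx
    rw [MonoidHom.mem_ker]
    have : QuotientGroup.mk' M x = 1 := (QuotientGroup.eq_one_iff x).2 hx
    rw [MonoidHom.comp_apply, MonoidHom.comp_apply, this, map_one, map_one]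

/-- the number of homomorphisms to `ℤ/2` determines the genus -/
theorem genus_unique {g h : ℕ} {L : Type} [Group L] (Φ : NatBij L (SurfaceGroup g))
    (e : L ≃* SurfaceGroup h) : g = h := by
  have hf2 : Finite (Multiplicative (ZMod 2)) := inferInstanceAs (Finite (ZMod 2))
  have h1 : Nat.card (L →* Multiplicative (ZMod 2)) = 2 ^ (2 * g) := by
    rw [Nat.card_congr (Φ.equiv _), SuPts.card_hom_comm]
    exact congrArg (· ^ (2 * g)) (Nat.card_zmod 2)
  have h2 : Nat.card (L →* Multiplicative (ZMod 2)) = 2 ^ (2 * h) := by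
    rw [Nat.card_congr (MulEquiv.monoidHomCongrLeftEquiv e), SuPts.card_hom_comm]
    exact congrArg (· ^ (2 * h)) (Nat.card_zmod 2)
  rw [h1] at h2
  have := Nat.pow_right_injective le_rfl h2
  omega

theorem natBij_symm_equiv {g : ℕ} {L L' : Type} [Group L] [Group L'] (e : L' ≃* L)
    (h : Nonempty (NatBij L (SurfaceGroup g))) : Nonempty (NatBij L' (SurfaceGroup g)) := by
  obtain ⟨Φ⟩ := h
  exact ⟨Pool.Agent.F8.natBij_equiv e Φ⟩

/-- THE TOWER -/
theorem tower (h6 : S_T6) (k : ℕ) : ∀ (L : Type) [Group L] (g : ℕ), 2 ≤ g → Group.FG L →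
    Nonempty (NatBij L (SurfaceGroup g)) → ∀ (M : Subgroup L) [M.Normal], M.index = 2 ^ k →
      (∃ g', 2 ≤ g' ∧ Nonempty (NatBij M (SurfaceGroup g'))) ∧
        ((∃ n, Nonempty (M ≃* SurfaceGroup (n + 2))) → Nonempty (L ≃* SurfaceGroup g)) := by
  induction k with
  | zero =>
    intro L _ g hg hfg hnb M _ hM
    have hM' : M = ⊤ := by
      rw [pow_zero] at hM
      exact Subgroup.index_eq_one.1 hM
    subst hM'
    refine ⟨⟨g, hg, natBij_symm_equiv Subgroup.topEquiv hnb⟩, ?_⟩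
    rintro ⟨n, ⟨e⟩⟩
    obtain ⟨Φ⟩ := hnb
    have e' : L ≃* SurfaceGroup (n + 2) := Subgroup.topEquiv.symm.trans e
    have := genus_unique Φ e'
    subst this
    exact ⟨e'⟩
  | succ k ih =>
    intro L _ g hg hfg hnb M _ hM
    obtain ⟨θ, hθ, hle⟩ := exists_theta M k hM
    have : Fact (Nat.Prime 2) := ⟨Nat.prime_two⟩
    have hf2 : Finite (Multiplicative (ZMod 2)) := inferInstanceAs (Finite (ZMod 2))
    have hnb1 : Nonempty (NatBij θ.ker (SurfaceGroup (2 * (g - 1) + 1))) := by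
      obtain ⟨Φ⟩ := hnb
      exact SuCov.cov_natBij (by omega) Φ θ hθ
    have hfi : θ.ker.FiniteIndex := Subgroup.finiteIndex_ker θ
    have hfg1 : Group.FG θ.ker := by
      have := hfg
      infer_instance
    have hidx : θ.ker.index = 2 := by
      rw [Subgroup.index_ker]
      have h1 : θ.range ≠ ⊥ := by
        intro h
        apply hθ
        ext x
        have : θ x ∈ θ.range := ⟨x, rfl⟩
        rw [h, Subgroup.mem_bot] at this
        rw [this]
        rfl
      have h2 : Nat.card θ.range ∣ Nat.card (Multiplicative (ZMod 2)) := Subgroup.card_subgroup_dvd_card _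
      have h3 : Nat.card (Multiplicative (ZMod 2)) = 2 := Nat.card_zmod 2
      rw [h3] at h2
      rcases (Nat.dvd_prime Nat.prime_two).1 h2 with h4 | h4
      · exact absurd (Subgroup.card_eq_one.1 h4) h1
      · exact h4
    have hM1 : (M.subgroupOf θ.ker).index = 2 ^ k := by
      have h1 := Subgroup.relIndex_mul_index hle
      rw [hM, hidx, pow_succ] at h1
      exact Nat.eq_of_mul_eq_mul_right (by norm_num) h1
    obtain ⟨⟨g', hg', h1⟩, h2⟩ := ih θ.ker (2 * (g - 1) + 1) (by omega) hfg1 hnb1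
      (M.subgroupOf θ.ker) hM1
    have e : M.subgroupOf θ.ker ≃* M := Subgroup.subgroupOfEquivOfLe hle
    refine ⟨⟨g', hg', natBij_symm_equiv e.symm h1⟩, ?_⟩
    rintro ⟨n, ⟨f⟩⟩
    obtain ⟨f1⟩ := h2 ⟨n, ⟨e.trans f⟩⟩
    obtain ⟨m, hm⟩ : ∃ m, 2 * (g - 1) + 1 = m + 2 := ⟨2 * (g - 1) - 1, by omega⟩
    refine h6 g m L hg hfg hnb θ hθ ?_
    rw [← hm]
    exact ⟨f1⟩

end Pool.Agent.SuAsm
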